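import Pool.Agent.H19.KL.Stmts2

/-!
# Project KL, module BPC: the Poincaré inequality for the bodies
-/

set_option autoImplicit false

open MeasureTheory Set
open scoped ContDiff

namespace Pool.Agent.H19.KL

open Pool.Agent.H84 Pool.Agent.H84.Sym Pool.Agent.H84.Sym.P2x Pool.Agent.H84.Sym.C29
open Pool.Agent.H73.Lp

section aux

variable {E : Type} [NormedAddCommGroup E] [InnerProductSpace ℝ E]
    [FiniteDimensional ℝ E] [MeasurableSpace E] [BorelSpace E]

omit [FiniteDimensional ℝ E] [MeasurableSpace E] [BorelSpace E] in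
/-- powers of linear functionals have the right growth -/
theorem gc_abs_rpow (e : E) {r : ℝ} (hr : 0 < r) : GC (fun x : E => |(inner ℝ e x : ℝ)| ^ r) := by
  constructor
  · have hc1 : Continuous (fun x : E => |(inner ℝ e x : ℝ)|) := by fun_prop
    refine continuous_iff_continuousAt.2 fun x => ?_
    exact (Real.continuousAt_rpow_const _ _ (Or.inr hr.le)).comp hc1.continuousAt
  · refine ⟨1, r * ‖e‖, fun x => ?_⟩
    have h1 : |(inner ℝ e x : ℝ)| ≤ ‖e‖ * ‖x‖ := abs_real_inner_le_norm _ _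
    rw [abs_of_nonneg (Real.rpow_nonneg (abs_nonneg _) _), one_mul]
    rcases eq_or_ne |(inner ℝ e x : ℝ)| 0 with h0 | h0
    · rw [h0, Real.zero_rpow hr.ne']
      exact (Real.exp_pos _).le
    · have hp : 0 < |(inner ℝ e x : ℝ)| := lt_of_le_of_ne (abs_nonneg _) (Ne.symm h0)
      rw [Real.rpow_def_of_pos hp]
      refine Real.exp_le_exp.2 ?_
      have h2 := Real.log_le_sub_one_of_pos hp
      have h3 : Real.log |(inner ℝ e x : ℝ)| ≤ ‖e‖ * ‖x‖ := by linarith
      calc Real.log |(inner ℝ e x : ℝ)| * r ≤ ‖e‖ * ‖x‖ * r :=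
            mul_le_mul_of_nonneg_right h3 hr.le
        _ = r * ‖e‖ * ‖x‖ := by ring

theorem XF_eq {K : Set E} {v : E} {r : ℝ} (hm : 0 < m1 K v) :
    XF K v r = fun x => |(inner ℝ ((m1 K v)⁻¹ • v) x : ℝ)| ^ r := by
  ext x
  unfold XF
  rw [real_inner_smul_left, abs_mul, abs_of_pos (inv_pos.2 hm), div_eq_inv_mul]

/-- Jensen's inequality by tangents -/
theorem XF_ge {K : Set E} {R : ℝ} (hK : CB K R) {v : E} (hm : 0 < m1 K v) {r : ℝ} (hr : 1 ≤ r) :
    volume.real K ≤ ∫ x in K, XF K v r x := by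
  have hV : 0 < volume.real K := ENNReal.toReal_pos hK.vol0 hK.lt_top.ne
  have hc1 : Continuous (fun x : E => |(inner ℝ v x : ℝ)|) := by fun_prop
  have hi1 := (hK.bm_of_cont hc1).integrableOn hK
  have hc2 : Continuous (XF K v r) := by
    rw [XF_eq hm]
    exact (gc_abs_rpow _ (by linarith)).1
  have hi2 := (hK.bm_of_cont hc2).integrableOn hK
  have hi3 : IntegrableOn (fun x : E => (1:ℝ) + r * (|(inner ℝ v x : ℝ)| / m1 K v - 1)) K := by
    have hc : Continuous (fun x : E => (1:ℝ) + r * (|(inner ℝ v x : ℝ)| / m1 K v - 1)) := by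
      fun_prop
    exact (hK.bm_of_cont hc).integrableOn hK
  have h1 : ∫ x in K, ((1:ℝ) + r * (|(inner ℝ v x : ℝ)| / m1 K v - 1)) ≤ ∫ x in K, XF K v r x := by
    refine integral_mono hi3 hi2 fun x => ?_
    have h0 : 0 ≤ |(inner ℝ v x : ℝ)| / m1 K v := by positivity
    have := one_add_mul_self_le_rpow_one_add (s := |(inner ℝ v x : ℝ)| / m1 K v - 1)
      (by linarith) hr
    simpa [XF] using this
  have h2 : ∫ x in K, ((1:ℝ) + r * (|(inner ℝ v x : ℝ)| / m1 K v - 1)) = volume.real K := by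
    have e : (fun x : E => (1:ℝ) + r * (|(inner ℝ v x : ℝ)| / m1 K v - 1)) =
        fun x => (1 - r) + (r / m1 K v) * |(inner ℝ v x : ℝ)| := by
      ext x; ring
    rw [e, integral_add ((hK.bm_of_cont continuous_const).integrableOn hK) (hi1.const_mul _),
      integral_const_mul]
    have h3 : ∫ x in K, |(inner ℝ v x : ℝ)| = m1 K v * volume.real K := by
      unfold m1
      field_simp
    rw [h3]
    simp only [integral_const, smul_eq_mul]
    rw [measureReal_restrict_apply_univ]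
    field_simp
    ring
  linarith

end aux

theorem exp_two_lt' : Real.exp 2 < 7.39 := by
  have h := Real.exp_one_lt_d9
  have h2 : Real.exp 2 = Real.exp 1 * Real.exp 1 := by rw [← Real.exp_add]; norm_num
  have h0 := Real.exp_pos 1
  rw [h2]
  nlinarith

theorem bpc_thm (E : Type) [NormedAddCommGroup E] [InnerProductSpace ℝ E] [FiniteDimensional ℝ E]
    [MeasurableSpace E] [BorelSpace E] (hTL2 : TL2Stmt E) (hBD2 : BD2Stmt E) (hCOO : COOStmt E)
    (hTRF : TRFStmt E) (hCV2 : CV2Stmt E) (hKPI : KPIStmt E) (hREV : REVStmt E) : BPCStmt E := by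
  intro ι _ v φ p q hne hφ hp hp2 hq4 hv hv0 s hs hcov
  have := hne
  have hpq : p ≤ q := by linarith
  have hp1 : 0 < p - 1 := by linarith
  have hq0 : 0 < q := by linarith
  obtain ⟨R, hR0, hK⟩ := KK_CB hφ hp hpq hv
  have hsym : ∀ x ∈ KK v φ, -x ∈ KK v φ := fun x hx => KK_neg hφ hx
  have hd : (0:ℝ) < Module.finrank ℝ E := by exact_mod_cast Module.finrank_pos (R := ℝ) (M := E)
  have hV : 0 < volume.real (KK v φ) := ENNReal.toReal_pos hK.vol0 hK.lt_top.ne
  have hm : ∀ j, 0 < m1 (KK v φ) (v j) := fun j => m1_pos hK (hv0 j)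
  have hβ : ∀ j, 0 < bet v φ j := fun j => mul_pos hd ((hφ j).kap_pos (hm j).ne')
  obtain ⟨S, v', hS, htight⟩ := hCOO ι v (bet v φ) hv hβ
  obtain ⟨hv', hm1, htr⟩ := hTRF ι v v' φ p q hφ hp hpq hv S hS
  have hv0' : ∀ j, v' j ≠ 0 := by
    intro j h0
    have h1 := hS j (v j)
    rw [h0, inner_zero_left, real_inner_self_eq_norm_sq] at h1
    exact hv0 j (norm_eq_zero.1 (by
      have : ‖v j‖ ^ 2 = 0 := h1.symm
      exact pow_eq_zero_iff (two_ne_zero) |>.1 this))
  have hbet : bet v' φ = bet v φ := by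
    ext j
    unfold bet
    rw [hm1 j]
  obtain ⟨R', hR0', hK'⟩ := KK_CB hφ hp hpq hv'
  have hV' : 0 < volume.real (KK v' φ) := ENNReal.toReal_pos hK'.vol0 hK'.lt_top.ne
  have hm' : ∀ j, 0 < m1 (KK v' φ) (v' j) := fun j => m1_pos hK' (hv0' j)
  -- the lower bound of the linear map
  have hlow : ∀ w, ‖w‖ ≤ (s * Real.sqrt (CA p q)) * ‖S w‖ := by
    intro w
    have hSw : ∑ j, bet v φ j * (inner ℝ (v j) w) ^ 2 = ‖S w‖ ^ 2 := by
      rw [← htight (S w)]
      refine Finset.sum_congr rfl fun j _ => ?_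
      rw [hS]
    have h1 := hCV2 ι v φ p q hne hφ hp hp2 (by linarith) hv hv0 s hcov w
    set M := 1 / (p - 1) + momC (q - 2) with hM
    have h2 : ∀ j, ∫ x in KK v φ, kap (φ j) (inner ℝ (v j) x) ≤
        kap (φ j) (m1 (KK v φ) (v j)) * (M * volume.real (KK v φ)) := fun j =>
      (hKPI (KK v φ) R (v j) (φ j) p q hK hsym (hv0 j) (hφ j) hp hp2 (by linarith)).2.2
    have hc0 : 0 ≤ 36 * q ^ 3 * (q - 1) * Module.finrank ℝ E * s ^ 2 := by
      have : 0 ≤ q - 1 := by linarith
      positivity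
    have h3 : ‖w‖ ^ 2 * volume.real (KK v φ) ≤
        (s ^ 2 * CA p q * ‖S w‖ ^ 2) * volume.real (KK v φ) := by
      refine h1.trans ?_
      calc 36 * q ^ 3 * (q - 1) * Module.finrank ℝ E * s ^ 2 *
            ∑ j, (∫ x in KK v φ, kap (φ j) (inner ℝ (v j) x)) * (inner ℝ (v j) w) ^ 2
          ≤ 36 * q ^ 3 * (q - 1) * Module.finrank ℝ E * s ^ 2 *
            ∑ j, (kap (φ j) (m1 (KK v φ) (v j)) * (M * volume.real (KK v φ))) *
              (inner ℝ (v j) w) ^ 2 := by
            refine mul_le_mul_of_nonneg_left ?_ hc0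
            exact Finset.sum_le_sum fun j _ => mul_le_mul_of_nonneg_right (h2 j) (sq_nonneg _)
        _ = (s ^ 2 * CA p q * ∑ j, bet v φ j * (inner ℝ (v j) w) ^ 2) *
              volume.real (KK v φ) := by
            unfold bet CA
            rw [← hM, Finset.mul_sum, Finset.mul_sum, Finset.sum_mul]
            refine Finset.sum_congr rfl fun j _ => ?_
            ring
        _ = _ := by rw [hSw]
    have h4 : ‖w‖ ^ 2 ≤ s ^ 2 * CA p q * ‖S w‖ ^ 2 := le_of_mul_le_mul_right h3 hV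
    rcases le_or_gt 0 (CA p q) with hca | hca
    · refine (pow_le_pow_iff_left₀ (norm_nonneg w) (by positivity) two_ne_zero).1 ?_
      rw [mul_pow, mul_pow, Real.sq_sqrt hca]
      exact h4
    · have h5 : ‖w‖ ^ 2 ≤ 0 := by
        refine h4.trans ?_
        have : s ^ 2 * CA p q ≤ 0 := mul_nonpos_of_nonneg_of_nonpos (sq_nonneg _) hca.le
        exact mul_nonpos_of_nonpos_of_nonneg this (sq_nonneg _)
      have h6 : ‖w‖ = 0 := by
        have : ‖w‖ ^ 2 = 0 := le_antisymm h5 (sq_nonneg _)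
        exact pow_eq_zero_iff (two_ne_zero) |>.1 this
      rw [h6]
      positivity
  -- the tilt
  obtain ⟨W, c, D, hW, hW0, hW2, hWg, hc, hc0, hH, hD, hD1, hlowc, hDint⟩ :=
    hTL2 ι v' φ p q hne hφ hp hp2 hq4 hv' hv0'
  set r : ℝ := (q - 2) / 2 with hr
  have hr1 : 1 ≤ r := by rw [hr]; linarith
  have hqp : 1 ≤ q / (p - 1) := by
    rw [le_div_iff₀ hp1]
    linarith
  have h81 : (1:ℝ) ≤ 81 ^ r := Real.one_le_rpow (by norm_num) (by linarith)
  have hexp := exp_two_lt'
  have hexp0 := Real.exp_pos 2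
  have hPC := hBD2 ι v' (KK v' φ) R' W c D (fun j => XF (KK v' φ) (v' j) r) (bet v φ)
    (77 * 81 ^ r) (100000 * (q / (p - 1))) (1 / 8) hne hK' hW hW0 hW2 hWg hc hc0 hH hβ htight hD hD1
    (fun j => by
      rw [XF_eq (hm' j)]
      exact gc_abs_rpow _ (by linarith))
    (fun j x => Real.rpow_nonneg (div_nonneg (abs_nonneg _) (hm' j).le) _)
    (fun j x => by
      have := hlowc j x
      rw [hbet] at this
      exact this)
    (by nlinarith)
    (fun U t C hU j s y hs => by
      have h1 := hREV U t C hU ((m1 (KK v' φ) (v' j))⁻¹ • v' j) r hr1 s y hs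
      have h2 : XF (KK v' φ) (v' j) r = _ := XF_eq (hm' j)
      have h3 : (fun x => XF (KK v' φ) (v' j) r x ^ 4) =
          fun x => (|(inner ℝ ((m1 (KK v' φ) (v' j))⁻¹ • v' j) x : ℝ)| ^ r) ^ 4 := by
        rw [h2]
      show av U s (fun x => XF (KK v' φ) (v' j) r x ^ 4) y ≤
        (77 * 81 ^ r) ^ 2 * av U s (XF (KK v' φ) (v' j) r) y ^ 4
      rw [h3, h2]
      exact h1)
    (by nlinarith)
    (fun j => by
      have h1 := hDint j
      have h2 : 0 < (q / (p - 1)) ^ 2 * volume.real (KK v' φ) := by positivity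
      calc Real.exp 2 * ∫ x in KK v' φ, D j x ^ 2
          ≤ Real.exp 2 * (1000000000 * (q / (p - 1)) ^ 2 * volume.real (KK v' φ)) :=
            mul_le_mul_of_nonneg_left h1 hexp0.le
        _ = (Real.exp 2 * 1000000000) * ((q / (p - 1)) ^ 2 * volume.real (KK v' φ)) := by ring
        _ < 10000000000 * ((q / (p - 1)) ^ 2 * volume.real (KK v' φ)) := by
            refine mul_lt_mul_of_pos_right ?_ h2
            linarith
        _ = _ := by ring)
    (by norm_num)
    (fun j => by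
      have h1 := XF_ge hK' (hm' j) hr1
      have h2 : Real.exp 2 * (1 / 8) * volume.real (KK v' φ) < volume.real (KK v' φ) := by
        nlinarith
      exact h2.trans_le h1)
  have hfin := htr _ _ (Real.sqrt_nonneg _)
    (mul_nonneg hs.le (Real.sqrt_nonneg _)) hlow hPC
  have e : Real.sqrt (Real.exp 2 * max (K1 (77 * 81 ^ r) (100000 * (q / (p - 1))))
      (4 * K2 (77 * 81 ^ r) (100000 * (q / (p - 1))) (1 / 8))) * (s * Real.sqrt (CA p q)) =
      CC p q * s := by
    unfold CC CB2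
    rw [← hr]
    ring
  rw [e] at hfin
  exact hfin

end Pool.Agent.H19.KL
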