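import Pool.Agent.H91.Sym.P3a
import Pool.Agent.H73.Lp.HMG
import Pool.Agent.H84.Sym.P6a

/-!
# Project KL: KLS for subspaces of `L_p`, all `1 < p < ∞`: definitions and first lemmas

`pt U s y` is the potential of the posterior measure of `x` (with potential `U`) given the noisy
observation `y = x + N(0, 1/s)`, `NI` the corresponding integrals, `av` the posterior means, `WW`
the potential of the law of `y`.
-/

set_option autoImplicit false

open MeasureTheory Set
open scoped ContDiff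

namespace Pool.Agent.H19.KL

open Pool.Agent.H84 Pool.Agent.H84.Sym Pool.Agent.H84.Sym.P2x Pool.Agent.H84.Sym.C29
open Pool.Agent.H84.Sym.P6

variable {E : Type*} [NormedAddCommGroup E] [InnerProductSpace ℝ E]

/-- the potential of the posterior measure -/
noncomputable def pt (U : E → ℝ) (s : ℝ) (y x : E) : ℝ := U x + s * ‖x - y‖ ^ 2 / 2

/-- `U` may be used with noise of precision `s` -/
def Adm (U : E → ℝ) (s : ℝ) : Prop := 0 < s ∧ ∃ t C : ℝ, Pot (pt U s 0) t C

variable [FiniteDimensional ℝ E] [MeasurableSpace E] [BorelSpace E]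

/-- the integral of `F` against `exp (-U x - s |x - y|² / 2)` -/
noncomputable def NI (U : E → ℝ) (s : ℝ) (F : E → ℝ) (y : E) : ℝ :=
  ∫ x, F x * Real.exp (-pt U s y x)

/-- the Gaussian integral -/
noncomputable def gs (E : Type*) [NormedAddCommGroup E] [InnerProductSpace ℝ E]
    [FiniteDimensional ℝ E] [MeasurableSpace E] [BorelSpace E] (s : ℝ) : ℝ :=
  ∫ x : E, Real.exp (-(s * ‖x‖ ^ 2 / 2))

/-- posterior mean -/
noncomputable def av (U : E → ℝ) (s : ℝ) (F : E → ℝ) (y : E) : ℝ :=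
  NI U s F y / NI U s (fun _ => 1) y

/-- the potential of the law of `x + noise` -/
noncomputable def WW (U : E → ℝ) (s : ℝ) (y : E) : ℝ :=
  -Real.log (NI U s (fun _ => 1) y / gs E s)

/-- the normalised potential of the posterior measure -/
noncomputable def np (U : E → ℝ) (s : ℝ) (y x : E) : ℝ :=
  pt U s y x + Real.log (NI U s (fun _ => 1) y)

omit [FiniteDimensional ℝ E] [MeasurableSpace E] [BorelSpace E] in
/-- the difference of the potentials for two observations -/
theorem pt_shift (U : E → ℝ) (s : ℝ) (y z x : E) :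
    pt U s y x = pt U s z x + (s * inner ℝ (z - y) x + s * (‖y‖ ^ 2 - ‖z‖ ^ 2) / 2) := by
  unfold pt
  rw [norm_sub_sq_real, norm_sub_sq_real, inner_sub_left, real_inner_comm x y, real_inner_comm x z]
  ring

omit [FiniteDimensional ℝ E] [MeasurableSpace E] [BorelSpace E] in
/-- adding an affine function to a potential -/
theorem pot_add_aff {U : E → ℝ} {t C : ℝ} (hU : Pot U t C) (a : E) (b : ℝ) :
    Pot (fun x => U x + (inner ℝ a x + b)) t (C + ‖a‖) ∧
      fderiv ℝ (fderiv ℝ (fun x => U x + (inner ℝ a x + b))) = fderiv ℝ (fderiv ℝ U) := by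
  have hd : Differentiable ℝ U := hU.smooth.differentiable (by norm_num)
  have hl : ∀ x : E, HasFDerivAt (fun x : E => (inner ℝ a x : ℝ) + b) (innerSL ℝ a) x := by
    intro x
    have h1 : HasFDerivAt (fun x : E => (inner ℝ a x : ℝ)) (innerSL ℝ a) x :=
      (innerSL ℝ a).hasFDerivAt
    exact h1.add_const b
  have h1 : fderiv ℝ (fun x => U x + (inner ℝ a x + b)) = fun x => fderiv ℝ U x + innerSL ℝ a := by
    ext1 x
    exact ((hd x).hasFDerivAt.add (hl x)).fderiv
  have hd2 : Differentiable ℝ (fderiv ℝ U) :=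
    (hU.smooth.fderiv_right (m := 1) (by norm_num)).differentiable (by norm_num)
  have h2 : fderiv ℝ (fderiv ℝ (fun x => U x + (inner ℝ a x + b))) = fderiv ℝ (fderiv ℝ U) := by
    rw [h1]
    ext1 x
    rw [fderiv_add_const]
  refine ⟨⟨?_, hU.pos, ?_, ?_⟩, h2⟩
  · have h3 : ContDiff ℝ 2 (fun x : E => (inner ℝ a x : ℝ) + b) :=
      (contDiff_const.inner ℝ contDiff_id).add contDiff_const
    exact hU.smooth.add h3
  · intro x v
    rw [h2]
    exact hU.hess x v
  · intro x
    rw [h1]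
    calc ‖fderiv ℝ U x + innerSL ℝ a‖ ≤ ‖fderiv ℝ U x‖ + ‖innerSL ℝ a‖ := norm_add_le _ _
      _ ≤ C * (1 + ‖x‖) + ‖a‖ * (1 + ‖x‖) := by
          rw [innerSL_apply_norm]
          have := hU.grad x
          nlinarith [norm_nonneg a, norm_nonneg x]
      _ = _ := by ring

omit [FiniteDimensional ℝ E] [MeasurableSpace E] [BorelSpace E] in
/-- adding a quadratic function to a potential -/
theorem pot_add_quad {U : E → ℝ} {t C : ℝ} (hU : Pot U t C) {s : ℝ} (hs : 0 ≤ s) (y : E) :
    Pot (pt U s y) (t + s) (C + s * (1 + ‖y‖)) ∧ ∀ x v : E,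
      fderiv ℝ (fderiv ℝ (pt U s y)) x v v = fderiv ℝ (fderiv ℝ U) x v v + s * ‖v‖ ^ 2 := by
  have hd : Differentiable ℝ U := hU.smooth.differentiable (by norm_num)
  have hl : ∀ x : E, HasFDerivAt (fun x : E => s * ‖x - y‖ ^ 2 / 2) (s • innerSL ℝ (x - y)) x := by
    intro x
    have h1 : HasFDerivAt (fun x : E => ‖x - y‖ ^ 2) (2 • (innerSL ℝ (x - y))) x := by
      have := ((hasFDerivAt_id (𝕜 := ℝ) x).sub_const y).norm_sq
      simpa using this
    have h2 := (h1.const_mul s).mul_const (2⁻¹ : ℝ)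
    have e : (fun x : E => s * ‖x - y‖ ^ 2 / 2) = fun x => s * ‖x - y‖ ^ 2 * 2⁻¹ := by
      ext x; rw [div_eq_mul_inv]
    rw [e]
    refine h2.congr_fderiv ?_
    ext v
    simp only [smul_apply, innerSL_apply_apply, smul_eq_mul, nsmul_eq_mul]
    push_cast
    ring
  have h1 : fderiv ℝ (pt U s y) = fun x => fderiv ℝ U x + s • innerSL ℝ (x - y) := by
    ext1 x
    exact ((hd x).hasFDerivAt.add (hl x)).fderiv
  have hd2 : Differentiable ℝ (fderiv ℝ U) :=
    (hU.smooth.fderiv_right (m := 1) (by norm_num)).differentiable (by norm_num)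
  have hq : ∀ x : E, HasFDerivAt (fun x : E => s • innerSL ℝ (x - y)) (s • innerSL ℝ (E := E)) x := by
    intro x
    have h3 : HasFDerivAt (fun x : E => innerSL ℝ (x - y)) (innerSL ℝ (E := E)) x := by
      have := (innerSL ℝ (E := E)).hasFDerivAt (x := x - y)
      exact this.comp x ((hasFDerivAt_id x).sub_const y)
    exact h3.const_smul s
  have h2 : ∀ x v : E, fderiv ℝ (fderiv ℝ (pt U s y)) x v v =
      fderiv ℝ (fderiv ℝ U) x v v + s * ‖v‖ ^ 2 := by
    intro x v
    have e2 : fderiv ℝ (fun x => fderiv ℝ U x + s • innerSL ℝ (x - y)) x = _ :=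
      ((hd2 x).hasFDerivAt.add (hq x)).fderiv
    rw [h1, e2]
    simp only [add_apply, smul_apply, smul_eq_mul]
    rw [innerSL_apply_apply, real_inner_self_eq_norm_sq]
  refine ⟨⟨?_, by linarith [hU.pos], ?_, ?_⟩, h2⟩
  · have h3 : ContDiff ℝ 2 (fun x : E => s * ‖x - y‖ ^ 2 / 2) :=
      (contDiff_const.mul ((contDiff_id.sub contDiff_const).norm_sq ℝ)).div_const _
    exact hU.smooth.add h3
  · intro x v
    rw [h2]
    have := hU.hess x v
    linarith
  · intro x
    rw [h1]
    have h4 : ‖x - y‖ ≤ (1 + ‖y‖) * (1 + ‖x‖) := by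
      have := norm_sub_le x y
      nlinarith [norm_nonneg x, norm_nonneg y]
    calc ‖fderiv ℝ U x + s • innerSL ℝ (x - y)‖ ≤ ‖fderiv ℝ U x‖ + ‖s • innerSL ℝ (x - y)‖ :=
          norm_add_le _ _
      _ ≤ C * (1 + ‖x‖) + s * ((1 + ‖y‖) * (1 + ‖x‖)) := by
          rw [norm_smul, innerSL_apply_norm, Real.norm_eq_abs, abs_of_nonneg hs]
          have := hU.grad x
          gcongr
      _ = _ := by ring

omit [FiniteDimensional ℝ E] [MeasurableSpace E] [BorelSpace E] in
/-- potentials are admissible -/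
theorem adm_of_pot {U : E → ℝ} {t C : ℝ} (hU : Pot U t C) {s : ℝ} (hs : 0 < s) : Adm U s :=
  ⟨hs, _, _, (pot_add_quad hU hs.le 0).1⟩

omit [FiniteDimensional ℝ E] [MeasurableSpace E] [BorelSpace E] in
/-- the Gaussian potential -/
theorem pot_gauss {s : ℝ} (hs : 0 < s) (y : E) : Pot (pt (fun _ => 0) s y) s (s * (1 + ‖y‖)) := by
  have hl : ∀ x : E, HasFDerivAt (pt (fun _ : E => (0:ℝ)) s y) (s • innerSL ℝ (x - y)) x := by
    intro x
    have h1 : HasFDerivAt (fun x : E => ‖x - y‖ ^ 2) (2 • (innerSL ℝ (x - y))) x := by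
      have := ((hasFDerivAt_id (𝕜 := ℝ) x).sub_const y).norm_sq
      simpa using this
    have h2 := (h1.const_mul s).mul_const (2⁻¹ : ℝ)
    have e : pt (fun _ : E => (0:ℝ)) s y = fun x => s * ‖x - y‖ ^ 2 * 2⁻¹ := by
      ext x; rw [pt, div_eq_mul_inv, zero_add]
    rw [e]
    refine h2.congr_fderiv ?_
    ext v
    simp only [smul_apply, innerSL_apply_apply, smul_eq_mul, nsmul_eq_mul]
    push_cast
    ring
  have h1 : fderiv ℝ (pt (fun _ : E => (0:ℝ)) s y) = fun x => s • innerSL ℝ (x - y) := by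
    ext1 x
    exact (hl x).fderiv
  have hq : ∀ x : E, HasFDerivAt (fun x : E => s • innerSL ℝ (x - y)) (s • innerSL ℝ (E := E)) x := by
    intro x
    have h3 : HasFDerivAt (fun x : E => innerSL ℝ (x - y)) (innerSL ℝ (E := E)) x := by
      have := (innerSL ℝ (E := E)).hasFDerivAt (x := x - y)
      exact this.comp x ((hasFDerivAt_id x).sub_const y)
    exact h3.const_smul s
  refine ⟨?_, hs, ?_, ?_⟩
  · have h3 : ContDiff ℝ 2 (fun x : E => (0:ℝ) + s * ‖x - y‖ ^ 2 / 2) :=
      contDiff_const.add ((contDiff_const.mul ((contDiff_id.sub contDiff_const).norm_sq ℝ)).div_const _)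
    exact h3
  · intro x v
    rw [h1, (hq x).fderiv]
    simp only [smul_apply, smul_eq_mul]
    rw [innerSL_apply_apply, real_inner_self_eq_norm_sq]
  · intro x
    rw [h1]
    have h4 : ‖x - y‖ ≤ (1 + ‖y‖) * (1 + ‖x‖) := by
      have := norm_sub_le x y
      nlinarith [norm_nonneg x, norm_nonneg y]
    rw [norm_smul, innerSL_apply_norm, Real.norm_eq_abs, abs_of_pos hs, mul_assoc]
    gcongr

omit [FiniteDimensional ℝ E] [MeasurableSpace E] [BorelSpace E] in
theorem adm_zero {s : ℝ} (hs : 0 < s) : Adm (fun _ : E => (0:ℝ)) s := ⟨hs, _, _, pot_gauss hs 0⟩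

omit [FiniteDimensional ℝ E] [MeasurableSpace E] [BorelSpace E] in
/-- the posterior potentials of an admissible potential -/
theorem pot_pt {U : E → ℝ} {s t C : ℝ} (hs : 0 < s) (h : Pot (pt U s 0) t C) (y : E) :
    Pot (pt U s y) t (C + s * ‖y‖) := by
  have h1 := (pot_add_aff h (-(s • y)) (s * ‖y‖ ^ 2 / 2)).1
  have h2 : (fun x => pt U s 0 x + (inner ℝ (-(s • y)) x + s * ‖y‖ ^ 2 / 2)) = pt U s y := by
    ext x
    rw [pt_shift U s y 0 x]
    simp only [zero_sub, norm_zero, inner_neg_left, real_inner_smul_left]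
    ring
  rw [h2, norm_neg, norm_smul, Real.norm_eq_abs, abs_of_pos hs] at h1
  exact h1

omit [FiniteDimensional ℝ E] [MeasurableSpace E] [BorelSpace E] in
theorem Adm.pot {U : E → ℝ} {s : ℝ} (h : Adm U s) (y : E) : ∃ t C : ℝ, Pot (pt U s y) t C := by
  obtain ⟨hs, t, C, h⟩ := h
  exact ⟨_, _, pot_pt hs h y⟩

omit [FiniteDimensional ℝ E] [MeasurableSpace E] [BorelSpace E] in
theorem Adm.cont {U : E → ℝ} {s : ℝ} (h : Adm U s) (y : E) : Continuous (pt U s y) := by
  obtain ⟨t, C, h⟩ := h.pot y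
  exact h.smooth.continuous

theorem NI_eq {U : E → ℝ} {s : ℝ} (h : Adm U s) (F : E → ℝ) (y : E) :
    NI U s F y = ∫ x, F x ∂(mu (pt U s y)) := (integral_mu (h.cont y) F).symm

theorem NI_int {U : E → ℝ} {s : ℝ} (h : Adm U s) {F : E → ℝ} (hF : GC F) (y : E) :
    Integrable (fun x => F x * Real.exp (-pt U s y x)) := by
  obtain ⟨t, C, h'⟩ := h.pot y
  exact (integrable_mu_iff (h.cont y)).1 (hF.integrable h')

theorem NI_one_pos {U : E → ℝ} {s : ℝ} (h : Adm U s) (y : E) : 0 < NI U s (fun _ => 1) y := by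
  obtain ⟨t, C, h'⟩ := h.pot y
  have h1 := mu_univ_pos h'.smooth.continuous (isFinite_mu h')
  rw [NI_eq h]
  simpa using h1

theorem gs_pos {s : ℝ} (hs : 0 < s) : 0 < gs E s := by
  have h := NI_one_pos (adm_zero (E := E) hs) 0
  unfold NI pt at h
  simpa [gs] using h

theorem np_pot {U : E → ℝ} {s t C : ℝ} {y : E} (h : Pot (pt U s y) t C) : Pot (np U s y) t C :=
  pot_add_const h _

theorem np_hess (U : E → ℝ) (s : ℝ) (y : E) :
    fderiv ℝ (fderiv ℝ (np U s y)) = fderiv ℝ (fderiv ℝ (pt U s y)) := by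
  have h1 : fderiv ℝ (np U s y) = fderiv ℝ (pt U s y) := by
    ext1 x
    unfold np
    rw [fderiv_add_const]
  rw [h1]

theorem int_np {U : E → ℝ} {s : ℝ} (h : Adm U s) (F : E → ℝ) (y : E) :
    ∫ x, F x ∂(mu (np U s y)) = av U s F y := by
  have h1 := mu_add_const (pt U s y) (h.cont y) (Real.log (NI U s (fun _ => 1) y))
  have h2 : mu (np U s y) = ENNReal.ofReal (Real.exp (-Real.log (NI U s (fun _ => 1) y))) •
      mu (pt U s y) := h1
  rw [h2, integral_smul_measure, ENNReal.toReal_ofReal (Real.exp_pos _).le, Real.exp_neg,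
    Real.exp_log (NI_one_pos h y), ← NI_eq h, smul_eq_mul]
  unfold av
  ring

theorem prob_np {U : E → ℝ} {s : ℝ} (h : Adm U s) (y : E) :
    IsProbabilityMeasure (mu (np U s y)) := by
  have h1 := int_np h (fun _ => 1) y
  have h2 : av U s (fun _ => 1) y = 1 := div_self (NI_one_pos h y).ne'
  rw [h2] at h1
  simp only [integral_const, smul_eq_mul, mul_one] at h1
  refine ⟨?_⟩
  exact (ENNReal.toReal_eq_one_iff _).1 h1

theorem exp_neg_WW {U : E → ℝ} {s : ℝ} (h : Adm U s) (y : E) :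
    Real.exp (-WW U s y) = NI U s (fun _ => 1) y / gs E s := by
  unfold WW
  rw [neg_neg, Real.exp_log (div_pos (NI_one_pos h y) (gs_pos h.1))]

theorem av_mul_exp {U : E → ℝ} {s : ℝ} (h : Adm U s) (F : E → ℝ) (y : E) :
    av U s F y * Real.exp (-WW U s y) = NI U s F y / gs E s := by
  rw [exp_neg_WW h, av]
  have := (NI_one_pos h y).ne'
  field_simp

theorem av_mono {U : E → ℝ} {s : ℝ} (h : Adm U s) {F G : E → ℝ} (hF : GC F) (hG : GC G)
    (hFG : ∀ x, F x ≤ G x) (y : E) : av U s F y ≤ av U s G y := by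
  obtain ⟨t, C, h'⟩ := h.pot y
  rw [← int_np h, ← int_np h]
  exact integral_mono (hF.integrable (np_pot h')) (hG.integrable (np_pot h')) hFG

theorem av_add {U : E → ℝ} {s : ℝ} (h : Adm U s) {F G : E → ℝ} (hF : GC F) (hG : GC G) (y : E) :
    av U s (fun x => F x + G x) y = av U s F y + av U s G y := by
  obtain ⟨t, C, h'⟩ := h.pot y
  rw [← int_np h, ← int_np h, ← int_np h]
  exact integral_add (hF.integrable (np_pot h')) (hG.integrable (np_pot h'))

theorem av_sub {U : E → ℝ} {s : ℝ} (h : Adm U s) {F G : E → ℝ} (hF : GC F) (hG : GC G) (y : E) :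
    av U s (fun x => F x - G x) y = av U s F y - av U s G y := by
  obtain ⟨t, C, h'⟩ := h.pot y
  rw [← int_np h, ← int_np h, ← int_np h]
  exact integral_sub (hF.integrable (np_pot h')) (hG.integrable (np_pot h'))

theorem av_const_mul {U : E → ℝ} {s : ℝ} (h : Adm U s) (c : ℝ) (F : E → ℝ) (y : E) :
    av U s (fun x => c * F x) y = c * av U s F y := by
  rw [← int_np h, ← int_np h, integral_const_mul]

theorem av_const {U : E → ℝ} {s : ℝ} (h : Adm U s) (c : ℝ) (y : E) :
    av U s (fun _ => c) y = c := by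
  have := prob_np h y
  rw [← int_np h]
  simp

theorem av_nonneg {U : E → ℝ} {s : ℝ} (h : Adm U s) {F : E → ℝ} (hF : ∀ x, 0 ≤ F x) (y : E) :
    0 ≤ av U s F y := by
  rw [← int_np h]
  exact integral_nonneg hF

/-- posterior means of a nonnegative function with positive mean are positive -/
theorem av_pos {U : E → ℝ} {s s' : ℝ} (h : Adm U s) (h' : Adm U s') {F : E → ℝ} (hF : GC F)
    (hF0 : ∀ x, 0 ≤ F x) {z : E} (hz : 0 < NI U s' F z) (y : E) : 0 < av U s F y := by
  refine div_pos ?_ (NI_one_pos h y)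
  unfold NI at hz ⊢
  rw [integral_pos_iff_support_of_nonneg (fun x => mul_nonneg (hF0 x) (Real.exp_pos _).le)
    (NI_int h hF y)]
  rw [integral_pos_iff_support_of_nonneg (fun x => mul_nonneg (hF0 x) (Real.exp_pos _).le)
    (NI_int h' hF z)] at hz
  have e : ∀ a : E → ℝ, (Function.support fun x => F x * Real.exp (-a x)) = Function.support F := by
    intro a
    ext x
    simp [(Real.exp_pos _).ne']
  rw [e] at hz ⊢
  exact hz

theorem av_pos' {U : E → ℝ} {t C s : ℝ} (hU : Pot U t C) (hs : 0 < s) {F : E → ℝ} (hF : GC F)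
    (hF0 : ∀ x, 0 ≤ F x) (hz : 0 < ∫ x, F x ∂(mu U)) (y : E) : 0 < av U s F y := by
  have h := adm_of_pot hU hs
  refine div_pos ?_ (NI_one_pos h y)
  unfold NI
  rw [integral_pos_iff_support_of_nonneg (fun x => mul_nonneg (hF0 x) (Real.exp_pos _).le)
    (NI_int h hF y)]
  rw [integral_mu hU.smooth.continuous, integral_pos_iff_support_of_nonneg
    (fun x => mul_nonneg (hF0 x) (Real.exp_pos _).le)
    ((integrable_mu_iff hU.smooth.continuous).1 (hF.integrable hU))] at hz
  have e : ∀ a : E → ℝ, (Function.support fun x => F x * Real.exp (-a x)) = Function.support F := by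
    intro a
    ext x
    simp [(Real.exp_pos _).ne']
  rw [e] at hz ⊢
  exact hz

end Pool.Agent.H19.KL
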