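import Pool.Agent.H79.KL.BD2
import Pool.Agent.H47.KL.BLW
import Pool.Agent.H19.KL.BPC
import Pool.Agent.H14.KL.CONC
import Pool.Agent.H27.KL.COO
import Pool.Agent.H26.KL.CR2
import Pool.Agent.H26.KL.CV2
import Pool.Agent.H70.KL.DAV
import Pool.Agent.H2.KL.DEC
import Pool.Agent.H92.KL.EXP
import Pool.Agent.H83.KL.EXT
import Pool.Agent.H27.KL.FUB
import Pool.Agent.H27.KL.GAU
import Pool.Agent.H3.KL.GLB
import Pool.Agent.H73.KL.GRO
import Pool.Agent.H26.KL.HES
import Pool.Agent.H34.KL.HMI
import Pool.Agent.H11.KL.KPI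
import Pool.Agent.H47.KL.LIP
import Pool.Agent.H11.KL.MGG
import Pool.Agent.H45.KL.MK4
import Pool.Agent.H2.KL.MLB
import Pool.Agent.H50.KL.MOK
import Pool.Agent.H65.KL.MU2
import Pool.Agent.H87.KL.NCD
import Pool.Agent.H34.KL.NGP
import Pool.Agent.H26.KL.PGC
import Pool.Agent.H14.KL.PLM
import Pool.Agent.H45.KL.REV
import Pool.Agent.H14.KL.RHO
import Pool.Agent.H2.KL.ST1
import Pool.Agent.H79.KL.ST2
import Pool.Agent.H87.KL.STP
import Pool.Agent.H3.KL.TL2
import Pool.Agent.H27.KL.TRF
import Pool.Agent.H83.KL.VAR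

set_option autoImplicit false
open MeasureTheory Set
open scoped ContDiff
namespace Pool.Agent.H19.KL
open Pool.Agent.H84 Pool.Agent.H84.Sym Pool.Agent.H84.Sym.P2x Pool.Agent.H84.Sym.C29
open Pool.Agent.H73.Lp

universe u

/-- The Poincare inequality of the tilted measures, uniformly in the dimension. -/
theorem fin_ngp (E : Type) [NormedAddCommGroup E] [InnerProductSpace ℝ E]
    [FiniteDimensional ℝ E] [MeasurableSpace E] [BorelSpace E] : NGPStmt E := by
  have ncd := ncd_thm E
  have var := var_thm E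
  have dav := dav_thm E ncd
  have hes := hes_thm E ncd var
  have con := con_thm E (plm_thm E)
  have gro := gro_thm E dav con
  have fub := fub_thm E ncd hes gro
  have gau := gau_thm E ncd hes
  have lip := lip_thm E dav var
  have ext' := ext_thm E
  have exp' := exp_thm E ext'
  have dec := dec_thm E dav gro fub ext' var hes
  have st1 := st1_thm E dav gro con fub lip exp' hes
  have st2 := st2_thm E gro con fub gau lip hes
  have blw := blw_thm E hes
  have stp := stp_thm E hes gro fub lip st1 st2 blw (mlb_thm E) (hmi_thm E) dec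
  exact ngp_thm E stp

/-- The Poincare inequality of the bodies. -/
theorem fin_bpc (E : Type) [NormedAddCommGroup E] [InnerProductSpace ℝ E]
    [FiniteDimensional ℝ E] [MeasurableSpace E] [BorelSpace E] : BPCStmt E := by
  have kpi := kpi_thm E (mok_thm E)
  have cr2 := cr2_thm E kpi pgc_thm
  have cv2 := cv2_thm E cr2 kpi
  exact bpc_thm E (tl2_thm E (mk4_thm E) (mgg_thm E) pgc_thm glb_thm) (bd2_thm E (fin_ngp E))
    (coo_thm E) (trf_thm E) cv2 kpi (rev_thm E (rho_thm E (plm_thm E)))

/-- The hyperplane inequality for all unit balls of finite-dimensional subspaces of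
Musielak-Orlicz spaces with indices in `(1, ∞)`. -/
theorem mus_final : MU2Stmt.{u} := mu2_thm.{u} fun n => fin_bpc (EuclideanSpace ℝ (Fin (n + 1)))

end Pool.Agent.H19.KL
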