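import Pool.Agent.H19.KL.Defs

/-!
# Project KL: statements of the modules of the first part (smooth potentials)
-/

set_option autoImplicit false

open MeasureTheory Set
open scoped ContDiff

namespace Pool.Agent.H19.KL

open Pool.Agent.H84 Pool.Agent.H84.Sym Pool.Agent.H84.Sym.P2x Pool.Agent.H84.Sym.C29

variable (E : Type) [NormedAddCommGroup E] [InnerProductSpace ℝ E]
    [FiniteDimensional ℝ E] [MeasurableSpace E] [BorelSpace E]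

/-- NCD: the noise integrals are smooth -/
def NCDStmt : Prop := ∀ (U : E → ℝ) (s : ℝ), Adm U s → ∀ F : E → ℝ, GC F →
  ContDiff ℝ 2 (NI U s F) ∧ ∀ y w : E, fderiv ℝ (NI U s F) y w =
    s * (NI U s (fun x => F x * inner ℝ x w) y - inner ℝ y w * NI U s F y)

/-- VAR: the covariance of a uniformly log-concave measure -/
def VARStmt : Prop := ∀ (V : E → ℝ) (t C : ℝ), Pot V t C → IsProbabilityMeasure (mu V) → ∀ w : E,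
  (∫ x, (inner ℝ x w : ℝ) ^ 2 ∂(mu V)) - (∫ x, (inner ℝ x w : ℝ) ∂(mu V)) ^ 2 ≤ ‖w‖ ^ 2 / t

/-- DAV: derivative of the posterior means -/
def DAVStmt : Prop := ∀ (U : E → ℝ) (s : ℝ), Adm U s → ∀ F : E → ℝ, GC F →
  ContDiff ℝ 1 (av U s F) ∧ ∀ y w : E, fderiv ℝ (av U s F) y w =
    s * (av U s (fun x => F x * inner ℝ x w) y - av U s F y * av U s (fun x => inner ℝ x w) y)

/-- HES: the potential of the law of `x + noise` -/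
def HESStmt : Prop := ∀ (U : E → ℝ) (t C s : ℝ), Pot U t C → 0 < s →
  (∃ C' : ℝ, Pot (WW U s) (t * s / (t + s)) C') ∧
  (∀ y w : E, fderiv ℝ (WW U s) y w = s * (inner ℝ y w - av U s (fun x => inner ℝ x w) y)) ∧
  ∀ y w : E, fderiv ℝ (fderiv ℝ (WW U s)) y w w = s * ‖w‖ ^ 2 -
    s ^ 2 * (av U s (fun x => (inner ℝ x w) ^ 2) y - av U s (fun x => inner ℝ x w) y ^ 2)

/-- PLM: the Prekopa-Leindler inequality for a uniformly log-concave measure -/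
def PLMStmt : Prop := ∀ (V : E → ℝ) (κ C : ℝ), Pot V κ C → ∀ f g h : E → ℝ,
  Measurable f → Measurable g → Measurable h → (∀ x, 0 ≤ f x) → (∀ x, 0 ≤ g x) → (∀ x, 0 ≤ h x) →
  Integrable f (mu V) → Integrable g (mu V) → Integrable h (mu V) →
  (∀ x y, f x * g y ≤ h ((2:ℝ)⁻¹ • (x + y)) ^ 2 * Real.exp (κ * ‖x - y‖ ^ 2 / 4)) →
  (∫ x, f x ∂(mu V)) * (∫ x, g x ∂(mu V)) ≤ (∫ x, h x ∂(mu V)) ^ 2

/-- CON: concentration -/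
def CONStmt : Prop := ∀ (V : E → ℝ) (κ C : ℝ), Pot V κ C → ∀ (F : E → ℝ) (ℓ : ℝ), Continuous F →
  0 ≤ ℓ → (∀ x y, |F x - F y| ≤ ℓ * ‖x - y‖) →
  GC (fun x => Real.exp (F x)) ∧ GC (fun x => Real.exp (-F x)) ∧
  (∫ x, Real.exp (F x) ∂(mu V)) * (∫ x, Real.exp (-F x) ∂(mu V)) ≤
    Real.exp (ℓ ^ 2 / κ) * (mu V).real univ ^ 2

/-- RHO: reverse Hoelder inequality for linear functionals -/
def RHOStmt : Prop := ∀ (V : E → ℝ) (t C : ℝ), Pot V t C → IsProbabilityMeasure (mu V) →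
  ∀ (e : E) (r : ℝ), 1 ≤ r → GC (fun x => |(inner ℝ e x : ℝ)| ^ r) ∧
    ∫ x, |(inner ℝ e x : ℝ)| ^ (2 * r) ∂(mu V) ≤
      18 * 9 ^ r * (∫ x, |(inner ℝ e x : ℝ)| ^ r ∂(mu V)) ^ 2

/-- GRO: growth of the posterior means -/
def GROStmt : Prop := ∀ (U : E → ℝ) (s : ℝ), Adm U s → ∀ F : E → ℝ, GC F → GC (av U s F)

/-- FUB: the two ways to integrate over `(x, y)` -/
def FUBStmt : Prop := ∀ (U : E → ℝ) (t C s : ℝ), Pot U t C → 0 < s → ∀ F : E → ℝ, GC F →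
  (∫ y, av U s F y ∂(mu (WW U s)) = ∫ x, F x ∂(mu U)) ∧
  (∫ y, F y ∂(mu (WW U s)) = ∫ x, av (fun _ => 0) s F x ∂(mu U)) ∧
  (IsProbabilityMeasure (mu U) → IsProbabilityMeasure (mu (WW U s)))

/-- GAU: two successive noises -/
def GAUStmt : Prop := ∀ (U : E → ℝ) (t C s τ : ℝ), Pot U t C → 0 < s → 0 < τ →
  WW (WW U s) τ = WW U (s * τ / (s + τ)) ∧ ∀ F : E → ℝ, GC F → ∀ y,
    av (WW U s) τ (av U s F) y = av U (s * τ / (s + τ)) F y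

/-- LIP: the logarithm of a posterior mean is Lipschitz -/
def LIPStmt : Prop := ∀ (U : E → ℝ) (t C s : ℝ), Pot U t C → 0 < s → ∀ X : E → ℝ, GC X →
  (∀ x, 0 ≤ X x) → (∀ y, 0 < av U s X y) → ∀ Γ : ℝ, 0 ≤ Γ →
  (∀ y, av U s (fun x => X x ^ 2) y ≤ Γ * av U s X y ^ 2) →
  ∀ y z, |Real.log (av U s X y) - Real.log (av U s X z)| ≤ Real.sqrt (Γ * s) * ‖y - z‖

/-- EXT: the Poincare inequality for functions which are not compactly supported -/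
def EXTStmt : Prop := ∀ (U : E → ℝ) (t C L : ℝ), Pot U t C → IsProbabilityMeasure (mu U) →
  GPC (mu U) L → ∀ f : E → ℝ, ContDiff ℝ 1 f → Gr f → Gr (fun x => ‖fderiv ℝ f x‖) →
  (∫ x, f x ^ 2 ∂(mu U)) - (∫ x, f x ∂(mu U)) ^ 2 ≤ L * ∫ x, ‖fderiv ℝ f x‖ ^ 2 ∂(mu U)

/-- EXP: exponential integrability from the Poincare inequality -/
def EXPStmt : Prop := ∀ (U : E → ℝ) (t C L : ℝ), Pot U t C → IsProbabilityMeasure (mu U) →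
  0 < L → GPC (mu U) L → ∀ (ψ : E → ℝ) (ℓ : ℝ), ContDiff ℝ 1 ψ → 0 ≤ ℓ →
  (∀ x, ‖fderiv ℝ ψ x‖ ≤ ℓ) → L * ℓ ^ 2 ≤ 1 →
  (∫ x, Real.exp (ψ x) ∂(mu U)) * (∫ x, Real.exp (-ψ x) ∂(mu U)) ≤ Real.exp 2

/-- DEC: decomposition of the variance -/
def DECStmt : Prop := ∀ (U : E → ℝ) (t C s Λ : ℝ), Pot U t C → IsProbabilityMeasure (mu U) →
  0 < s → 0 ≤ Λ → GPC (mu (WW U s)) Λ → GPC (mu U) (Λ + 1 / s)

/-- ST1: the negative moment at the small precision -/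
def ST1Stmt : Prop := ∀ (U : E → ℝ) (t C L : ℝ), Pot U t C → IsProbabilityMeasure (mu U) →
  0 < L → GPC (mu U) L → ∀ X : E → ℝ, GC X → (∀ x, 0 ≤ X x) → ∀ Γ m s₀ : ℝ, 1 ≤ Γ →
  (∀ s y, 0 < s → av U s (fun x => X x ^ 2) y ≤ Γ * av U s X y ^ 2) →
  0 < m → m ≤ ∫ x, X x ∂(mu U) → 0 < s₀ → 16 * Γ * L * s₀ ≤ 1 →
  ∫ y, (av U s₀ X y ^ 4)⁻¹ ∂(mu (WW U s₀)) ≤ Real.exp (16 * Γ + 2) / m ^ 4

/-- ST2: the negative moment at two precisions -/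
def ST2Stmt : Prop := ∀ (U : E → ℝ) (t C : ℝ), Pot U t C → IsProbabilityMeasure (mu U) →
  ∀ X : E → ℝ, GC X → (∀ x, 0 ≤ X x) → 0 < ∫ x, X x ∂(mu U) → ∀ Γ s₀ s : ℝ, 1 ≤ Γ →
  (∀ s y, 0 < s → av U s (fun x => X x ^ 2) y ≤ Γ * av U s X y ^ 2) →
  0 < s₀ → s₀ < s → GC (fun y => (av U s X y ^ 4)⁻¹) ∧
  ∫ y, (av U s X y ^ 4)⁻¹ ∂(mu (WW U s)) ≤
    Real.exp (16 * Γ * s / s₀) * ∫ y, (av U s₀ X y ^ 4)⁻¹ ∂(mu (WW U s₀))

/-- BLW: lower bound of the Hessian of `WW` -/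
def BLWStmt : Prop := ∀ (ι : Type) [Fintype ι] (v : ι → E) (U : E → ℝ) (t C s : ℝ), Pot U t C →
  0 < s → ∀ (c : ι → E → ℝ) (β : ι → ℝ), (∀ j, Continuous (c j)) → (∀ j x, 0 < c j x) →
  (∀ x w, ∑ j, c j x * (inner ℝ (v j) w) ^ 2 ≤ fderiv ℝ (fderiv ℝ U) x w w) → (∀ j, 0 < β j) →
  (∀ w, ∑ j, β j * (inner ℝ (v j) w) ^ 2 = ‖w‖ ^ 2) → ∀ y w : E,
  ∑ j, av U s (fun x => c j x * (s * β j) / (c j x + s * β j)) y * (inner ℝ (v j) w) ^ 2 ≤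
    fderiv ℝ (fderiv ℝ (WW U s)) y w w

/-- MLB: lower bound of the coefficients by Cauchy-Schwarz -/
def MLBStmt : Prop := ∀ (U : E → ℝ) (s : ℝ), Adm U s → s ≤ 1 → ∀ (c D X : E → ℝ) (β : ℝ),
  Continuous c → (∀ x, 0 < c x) → GC D → (∀ x, 1 ≤ D x) → GC X → (∀ x, 0 ≤ X x) → 0 < β →
  (∀ x, β * X x ^ 2 ≤ c x * (D x * (1 + X x ^ 2))) → ∀ y,
  β * av U s X y ^ 2 ≤ 2 * av U s (fun x => c x * (s * β) / (c x + s * β)) y *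
    av U s (fun x => D x * (1 + X x ^ 2 / s)) y

/-- HMI: the matrix harmonic mean bound, with an integrability hypothesis -/
def HMIStmt : Prop := ∀ (ι : Type) [Fintype ι] (v : ι → E) (U : E → ℝ) (t C : ℝ), Nontrivial E →
  Pot U t C → IsProbabilityMeasure (mu U) → ∀ (c : ι → E → ℝ), (∀ j, Continuous (c j)) →
  (∀ j x, 0 < c j x) → (∀ j, Integrable (fun x => (c j x)⁻¹) (mu U)) →
  (∀ x w, ∑ j, c j x * (inner ℝ (v j) w) ^ 2 ≤ fderiv ℝ (fderiv ℝ U) x w w) →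
  ∀ (β : ι → ℝ), (∀ j, 0 ≤ β j) → (∀ j, β j * ∫ x, (c j x)⁻¹ ∂(mu U) ≤ 1) →
  ∀ L : ℝ, 0 < L → (∀ w, ‖w‖ ^ 2 ≤ L * ∑ j, β j * (inner ℝ (v j) w) ^ 2) → GPC (mu U) L

/-- the constants -/
noncomputable def K1 (Γ B : ℝ) : ℝ := 2 * (2 * B * Γ + 1)

/-- the constants -/
noncomputable def K2 (Γ B m : ℝ) : ℝ :=
  2 * B * Real.exp (128 * Γ ^ 2 * K1 Γ B + 8 * Γ + 1) / m ^ 2

/-- the data of the main estimate -/
structure Dat {ι : Type} [Fintype ι] (v : ι → E) (U : E → ℝ) (c D X : ι → E → ℝ) (β : ι → ℝ)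
    (Γ B m : ℝ) : Prop where
  c_cont : ∀ j, Continuous (c j)
  c_pos : ∀ j x, 0 < c j x
  hess : ∀ x w, ∑ j, c j x * (inner ℝ (v j) w) ^ 2 ≤ fderiv ℝ (fderiv ℝ U) x w w
  β_pos : ∀ j, 0 < β j
  tight : ∀ w, ∑ j, β j * (inner ℝ (v j) w) ^ 2 = ‖w‖ ^ 2
  D_gc : ∀ j, GC (D j)
  D_one : ∀ j x, 1 ≤ D j x
  X_gc : ∀ j, GC (X j)
  X_nonneg : ∀ j x, 0 ≤ X j x
  low : ∀ j x, β j * X j x ^ 2 ≤ c j x * (D j x * (1 + X j x ^ 2))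
  Γ_one : 1 ≤ Γ
  rev : ∀ j s y, 0 < s → av U s (fun x => X j x ^ 4) y ≤ Γ ^ 2 * av U s (X j) y ^ 4
  B_one : 1 ≤ B
  D_sq : ∀ j, ∫ x, D j x ^ 2 ∂(mu U) ≤ B ^ 2
  m_pos : 0 < m
  m_le : ∀ j, m ≤ ∫ x, X j x ∂(mu U)

/-- STP: one step of the self-improvement -/
def STPStmt : Prop := ∀ (ι : Type) [Fintype ι] (v : ι → E) (U : E → ℝ) (t C : ℝ)
  (c D X : ι → E → ℝ) (β : ι → ℝ) (Γ B m L : ℝ), Nontrivial E → Pot U t C →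
  IsProbabilityMeasure (mu U) → Dat E v U c D X β Γ B m → K1 Γ B ≤ L → GPC (mu U) L →
  GPC (mu U) (L / 2 + K2 Γ B m)

/-- NGP: the Poincare inequality for smooth potentials -/
def NGPStmt : Prop := ∀ (ι : Type) [Fintype ι] (v : ι → E) (U : E → ℝ) (t C : ℝ)
  (c D X : ι → E → ℝ) (β : ι → ℝ) (Γ B m : ℝ), Nontrivial E → Pot U t C →
  IsProbabilityMeasure (mu U) → Dat E v U c D X β Γ B m →
  GPC (mu U) (max (K1 Γ B) (4 * K2 Γ B m))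

end Pool.Agent.H19.KL
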