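import Pool.Agent.H19.KL.Stmts
import Pool.Agent.H73.Lp.MUF

/-!
# Project KL: statements of the modules of the second part (bodies)
-/

set_option autoImplicit false

open MeasureTheory Set
open scoped ContDiff

namespace Pool.Agent.H19.KL

open Pool.Agent.H84 Pool.Agent.H84.Sym Pool.Agent.H84.Sym.P2x Pool.Agent.H84.Sym.C29
open Pool.Agent.H73.Lp

/-- the moment constants -/
noncomputable def momC (b : ℝ) : ℝ := ∑' k : ℕ, (2 * ((k:ℝ) + 1)) ^ b / 2 ^ k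

/-- the normalised power of a linear functional -/
noncomputable def XF {E : Type} [NormedAddCommGroup E] [InnerProductSpace ℝ E]
    [FiniteDimensional ℝ E] [MeasurableSpace E] [BorelSpace E] (K : Set E) (v : E) (r : ℝ) (x : E) :
    ℝ := (|inner ℝ v x| / m1 K v) ^ r

/-- the coefficients -/
noncomputable def bet {E : Type} [NormedAddCommGroup E] [InnerProductSpace ℝ E]
    [FiniteDimensional ℝ E] [MeasurableSpace E] [BorelSpace E] {ι : Type} [Fintype ι] (v : ι → E)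
    (φ : ι → ℝ → ℝ) (j : ι) : ℝ := Module.finrank ℝ E * kap (φ j) (m1 (KK v φ) (v j))

/-- PGC: closeness of the regularised function, all `q` -/
def PGCStmt : Prop := ∀ (p q : ℝ) (φ : ℝ → ℝ) (ε R s : ℝ), Orl p q φ → 1 < p → p ≤ q → 0 < ε →
  ε < R → |s| ≤ R → |psi (gg φ ε R) s - φ s| ≤ (q + 1) * R * deriv φ ε

/-- GLB: lower bound of the regularised second derivative -/
def GLBStmt : Prop := ∀ (p q : ℝ) (φ : ℝ → ℝ) (ε R m s : ℝ), Orl p q φ → 1 < p → p ≤ 2 → 2 ≤ q →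
  0 < ε → ε ≤ m → m ≤ R → (p - 1) * kap φ m * (|s| / m) ^ (q - 2) ≤
    gg φ ε R s * ((1 + |s| / m) * (1 + (|s| / m) ^ (q - 2)))

variable (E : Type) [NormedAddCommGroup E] [InnerProductSpace ℝ E]
    [FiniteDimensional ℝ E] [MeasurableSpace E] [BorelSpace E]

/-- REV: fourth moments of powers of linear functionals -/
def REVStmt : Prop := ∀ (U : E → ℝ) (t C : ℝ), Pot U t C → ∀ (e : E) (r : ℝ), 1 ≤ r →
  ∀ (s : ℝ) (y : E), 0 < s → av U s (fun x => (|(inner ℝ e x : ℝ)| ^ r) ^ 4) y ≤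
    (77 * 81 ^ r) ^ 2 * av U s (fun x => |(inner ℝ e x : ℝ)| ^ r) y ^ 4

/-- MOK: moments of linear functionals on a symmetric body -/
def MOKStmt : Prop := ∀ (K : Set E) (R : ℝ) (v : E), CB K R → (∀ x ∈ K, -x ∈ K) → v ≠ 0 →
  ∀ b : ℝ, 0 ≤ b → IntegrableOn (XF K v b) K ∧ ∫ x in K, XF K v b x ≤ momC b * volume.real K

/-- MK4: the fourth moment -/
def MK4Stmt : Prop := ∀ (K : Set E) (R : ℝ) (v : E), CB K R → (∀ x ∈ K, -x ∈ K) → v ≠ 0 →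
  ∫ x in K, (|inner ℝ v x| / m1 K v) ^ 4 ≤ 40000000 * volume.real K

/-- MGG: moments of `(d / q) (1 - Φ)` -/
def MGGStmt : Prop := ∀ (ι : Type) [Fintype ι] (v : ι → E) (φ : ι → ℝ → ℝ) (p q : ℝ),
  (∀ j, Orl p q (φ j)) → 1 < p → p ≤ q → Spans v →
  ∫ x in KK v φ, (Module.finrank ℝ E / q * (1 - Ph v φ x)) ^ 8 ≤ 40320 * volume.real (KK v φ)

/-- KPI: the integral of `φ'(s) / s` -/
def KPIStmt : Prop := ∀ (K : Set E) (R : ℝ) (v : E) (φ : ℝ → ℝ) (p q : ℝ), CB K R →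
  (∀ x ∈ K, -x ∈ K) → v ≠ 0 → Orl p q φ → 1 < p → p ≤ 2 → 2 ≤ q →
  IntegrableOn (fun x => kap φ (inner ℝ v x)) K ∧ 0 < ∫ x in K, kap φ (inner ℝ v x) ∧
  ∫ x in K, kap φ (inner ℝ v x) ≤
    kap φ (m1 K v) * ((1 / (p - 1) + momC (q - 2)) * volume.real K)

/-- CR2: Cramer-Rao inside the body, all `q` -/
def CR2Stmt : Prop := ∀ (ι : Type) [Fintype ι] (v : ι → E) (φ : ι → ℝ → ℝ) (p q : ℝ),
  (∀ j, Orl p q (φ j)) → 1 < p → p ≤ 2 → 2 ≤ q → Spans v → (∀ j, v j ≠ 0) → ∀ w : E,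
  (‖w‖ ^ 2 * ∫ x in KK v φ, (1 - Ph v φ x) ^ 2) ^ 2 ≤
    2 * (∫ x in KK v φ, (1 - Ph v φ x) * (inner ℝ w x) ^ 2) *
      ∑ j, (q - 1) * (inner ℝ (v j) w) ^ 2 *
        ∫ x in KK v φ, (1 - Ph v φ x) ^ 2 * kap (φ j) (inner ℝ (v j) x)

/-- CV2: lower bound of the covariance, all `q` -/
def CV2Stmt : Prop := ∀ (ι : Type) [Fintype ι] (v : ι → E) (φ : ι → ℝ → ℝ) (p q : ℝ),
  Nontrivial E → (∀ j, Orl p q (φ j)) → 1 < p → p ≤ 2 → 2 ≤ q → Spans v → (∀ j, v j ≠ 0) →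
  ∀ s : ℝ, (∀ w, ∫ x in KK v φ, (inner ℝ w x) ^ 2 ≤ s ^ 2 * ‖w‖ ^ 2 * volume.real (KK v φ)) →
  ∀ w : E, ‖w‖ ^ 2 * volume.real (KK v φ) ≤ 36 * q ^ 3 * (q - 1) * Module.finrank ℝ E * s ^ 2 *
    ∑ j, (∫ x in KK v φ, kap (φ j) (inner ℝ (v j) x)) * (inner ℝ (v j) w) ^ 2

/-- TL2: existence of the tilting potential -/
def TL2Stmt : Prop := ∀ (ι : Type) [Fintype ι] (v : ι → E) (φ : ι → ℝ → ℝ) (p q : ℝ),
  Nontrivial E → (∀ j, Orl p q (φ j)) → 1 < p → p ≤ 2 → 4 ≤ q → Spans v → (∀ j, v j ≠ 0) →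
  ∃ (W : E → ℝ) (c D : ι → E → ℝ), ContDiff ℝ 2 W ∧ (∀ x, 0 ≤ W x) ∧ (∀ x ∈ KK v φ, W x ≤ 2) ∧
    (∃ C : ℝ, ∀ x, ‖fderiv ℝ W x‖ ≤ C * (1 + ‖x‖)) ∧ (∀ j, Continuous (c j)) ∧
    (∀ j x, 0 < c j x) ∧
    (∀ x w, ∑ j, c j x * (inner ℝ (v j) w) ^ 2 ≤ fderiv ℝ (fderiv ℝ W) x w w) ∧
    (∀ j, GC (D j)) ∧ (∀ j x, 1 ≤ D j x) ∧
    (∀ j x, bet v φ j * XF (KK v φ) (v j) ((q - 2) / 2) x ^ 2 ≤
      c j x * (D j x * (1 + XF (KK v φ) (v j) ((q - 2) / 2) x ^ 2))) ∧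
    ∀ j, ∫ x in KK v φ, D j x ^ 2 ≤ 1000000000 * (q / (p - 1)) ^ 2 * volume.real (KK v φ)

/-- BD2: from smooth potentials to a body -/
def BD2Stmt : Prop := ∀ (ι : Type) [Fintype ι] (v : ι → E) (K : Set E) (R : ℝ) (W : E → ℝ)
  (c D X : ι → E → ℝ) (β : ι → ℝ) (Γ B m : ℝ), Nontrivial E → CB K R → ContDiff ℝ 2 W →
  (∀ x, 0 ≤ W x) → (∀ x ∈ K, W x ≤ 2) → (∃ C : ℝ, ∀ x, ‖fderiv ℝ W x‖ ≤ C * (1 + ‖x‖)) →
  (∀ j, Continuous (c j)) → (∀ j x, 0 < c j x) →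
  (∀ x w, ∑ j, c j x * (inner ℝ (v j) w) ^ 2 ≤ fderiv ℝ (fderiv ℝ W) x w w) →
  (∀ j, 0 < β j) → (∀ w, ∑ j, β j * (inner ℝ (v j) w) ^ 2 = ‖w‖ ^ 2) →
  (∀ j, GC (D j)) → (∀ j x, 1 ≤ D j x) → (∀ j, GC (X j)) → (∀ j x, 0 ≤ X j x) →
  (∀ j x, β j * X j x ^ 2 ≤ c j x * (D j x * (1 + X j x ^ 2))) → 1 ≤ Γ →
  (∀ (U : E → ℝ) (t C : ℝ), Pot U t C → ∀ j s y, 0 < s →
    av U s (fun x => X j x ^ 4) y ≤ Γ ^ 2 * av U s (X j) y ^ 4) →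
  1 ≤ B → (∀ j, Real.exp 2 * ∫ x in K, D j x ^ 2 < B ^ 2 * volume.real K) →
  0 < m → (∀ j, Real.exp 2 * m * volume.real K < ∫ x in K, X j x) →
  PC K (Real.sqrt (Real.exp 2 * max (K1 Γ B) (4 * K2 Γ B m)))

/-- COO: good coordinates -/
def COOStmt : Prop := ∀ (ι : Type) [Fintype ι] (v : ι → E) (β : ι → ℝ), Spans v →
  (∀ j, 0 < β j) → ∃ (S : E ≃L[ℝ] E) (v' : ι → E),
    (∀ j x, (inner ℝ (v' j) (S x) : ℝ) = inner ℝ (v j) x) ∧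
    (∀ w, ∑ j, β j * (inner ℝ (v' j) w) ^ 2 = ‖w‖ ^ 2)

/-- TRF: change of coordinates -/
def TRFStmt : Prop := ∀ (ι : Type) [Fintype ι] (v v' : ι → E) (φ : ι → ℝ → ℝ) (p q : ℝ),
  (∀ j, Orl p q (φ j)) → 1 < p → p ≤ q → Spans v → ∀ S : E ≃L[ℝ] E,
  (∀ j x, (inner ℝ (v' j) (S x) : ℝ) = inner ℝ (v j) x) →
  Spans v' ∧ (∀ j, m1 (KK v' φ) (v' j) = m1 (KK v φ) (v j)) ∧
  ∀ Λ lam : ℝ, 0 ≤ Λ → 0 ≤ lam → (∀ w, ‖w‖ ≤ lam * ‖S w‖) → PC (KK v' φ) Λ →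
    PC (KK v φ) (Λ * lam)

/-- the first constant -/
noncomputable def CA (p q : ℝ) : ℝ :=
  36 * q ^ 3 * (q - 1) * (1 / (p - 1) + momC (q - 2))

/-- the second constant -/
noncomputable def CB2 (p q : ℝ) : ℝ :=
  Real.exp 2 * max (K1 (77 * 81 ^ ((q - 2) / 2)) (100000 * (q / (p - 1))))
    (4 * K2 (77 * 81 ^ ((q - 2) / 2)) (100000 * (q / (p - 1))) (1 / 8))

/-- the Poincare constant of the body -/
noncomputable def CC (p q : ℝ) : ℝ := Real.sqrt (CB2 p q) * Real.sqrt (CA p q)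

/-- BPC: the Poincare inequality for the bodies -/
def BPCStmt : Prop := ∀ (ι : Type) [Fintype ι] (v : ι → E) (φ : ι → ℝ → ℝ) (p q : ℝ),
  Nontrivial E → (∀ j, Orl p q (φ j)) → 1 < p → p ≤ 2 → 4 ≤ q → Spans v → (∀ j, v j ≠ 0) →
  ∀ s : ℝ, 0 < s →
  (∀ w, ∫ x in KK v φ, (inner ℝ w x) ^ 2 ≤ s ^ 2 * ‖w‖ ^ 2 * volume.real (KK v φ)) →
  PC (KK v φ) (CC p q * s)

/-- MU2: the hyperplane inequality for the integral form -/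
def MU2Stmt.{u} : Prop := ∀ (n : ℕ) (α : Type u) (_ : MeasurableSpace α) (ν : Measure α)
  (v : α → EuclideanSpace ℝ (Fin (n + 1))) (φ : α → ℝ → ℝ) (p q : ℝ), 1 < p → p ≤ q →
  Measurable v → (∀ s, Measurable (fun o => φ o s)) → (∀ o, Orl p q (φ o)) →
  (∀ x, Integrable (fun o => φ o (inner ℝ (v o) x)) ν) →
  (∀ x, x ≠ 0 → ¬ ∀ᵐ o ∂ν, inner ℝ (v o) x = (0:ℝ)) →
    ({x | Mod ν v φ x < 1}.Nonempty ∧ IsOpen {x | Mod ν v φ x < 1} ∧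
      Bornology.IsBounded {x | Mod ν v φ x < 1} ∧ Convex ℝ {x | Mod ν v φ x < 1} ∧
      ∀ x ∈ {x | Mod ν v φ x < 1}, -x ∈ {x | Mod ν v φ x < 1}) ∧
    (∃ a : EuclideanSpace ℝ (Fin (n + 1)), a ≠ 0 ∧ ∀ b : EuclideanSpace ℝ (Fin (n + 1)),
      ‖a‖ ^ 2 * ∫ x in {x | Mod ν v φ x < 1}, (inner ℝ b x) ^ 2 ≤
        ‖b‖ ^ 2 * ∫ x in {x | Mod ν v φ x < 1}, (inner ℝ a x) ^ 2) ∧
    ∀ a : EuclideanSpace ℝ (Fin (n + 1)), a ≠ 0 →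
      (∀ b : EuclideanSpace ℝ (Fin (n + 1)),
        ‖a‖ ^ 2 * ∫ x in {x | Mod ν v φ x < 1}, (inner ℝ b x) ^ 2 ≤
          ‖b‖ ^ 2 * ∫ x in {x | Mod ν v φ x < 1}, (inner ℝ a x) ^ 2) →
      ∀ A : Set (EuclideanSpace ℝ (Fin (n + 1))),
        MeasurableSet A → A ⊆ {x | Mod ν v φ x < 1} → volume A = volume {x | Mod ν v φ x < 1} / 2 →
          Measure.hausdorffMeasure (n : ℝ)
              {x | x ∈ {x | Mod ν v φ x < 1} ∧ inner ℝ a x = (0 : ℝ)}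
            ≤ ENNReal.ofReal (7300 * CC (min p 2) (max q 4)) *
              Measure.hausdorffMeasure (n : ℝ) ({x | Mod ν v φ x < 1} ∩ frontier A)

end Pool.Agent.H19.KL
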